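import Pool.Agent.H2RJ.Clark

open Filter Topology Complex MeasureTheory Set Metric Matrix
open scoped Real ENNReal NNReal ComplexOrder

namespace Pool.Agent.H64CS

open Pool.Agent.RegJ Pool.Agent.RegK Pool.Agent.H2RJ

set_option linter.unusedSectionVars false

variable {m n : Type*} [Fintype m] [DecidableEq m] [Fintype n] [DecidableEq n]

/-- the inverse of the elementary matrix -/
lemma elem_inv {y w : n → ℂ} {κ : ℂ} (h0 : (1 : ℂ) - κ * (star y ⬝ᵥ w) ≠ 0) :
    ((1 : Matrix n n ℂ) + (κ / (1 - κ * (star y ⬝ᵥ w))) • vecMulVec w (star y))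
      * (1 - κ • vecMulVec w (star y)) = 1 := by
  rw [Matrix.add_mul, Matrix.one_mul, Matrix.mul_sub, Matrix.mul_one, Matrix.smul_mul,
    Matrix.mul_smul, Matrix.mul_vecMulVec, vv_vec, smul_vecMulVec, smul_smul, smul_smul]
  rw [← sub_smul, sub_add_eq_add_sub, add_sub_assoc, ← sub_smul]
  have : (κ / (1 - κ * (star y ⬝ᵥ w)) - κ / (1 - κ * (star y ⬝ᵥ w)) * κ *
      (star y ⬝ᵥ w) - κ) = 0 := by
    field_simp
    ring
  rw [this, zero_smul, add_zero]

/-- **Contact, scalar form.** -/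
theorem contact_scalar {g : ℂ → Matrix n m ℂ} {s : ℂ → ℂ} {x : m → ℂ} {y : n → ℂ}
    (hx : nsq x = 1) (hy : nsq y = 1) (hg : IsSchur g)
    (hd : DifferentiableOn ℂ s disc) (hs : ∀ z ∈ disc, 0 ≤ (s z).re)
    (hsb : ∀ᵐ ζ ∂σ, ∃ L, HasBdryValue s ζ L ∧ L.re = 0)
    (hδ : ∀ z ∈ disc, star y ⬝ᵥ (g z *ᵥ x + y) ≠ 0 ∧
      (s z).re + 1 / 2 ≤ ((star y ⬝ᵥ (g z *ᵥ x + y))⁻¹).re) :
    ∃ g' : ℂ → Matrix n m ℂ, IsSchur g' ∧
      ∀ z ∈ disc, (g' z * (SG s x y z).toBlocks₁₂ + (SG s x y z).toBlocks₂₂) * g z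
        = g' z * (SG s x y z).toBlocks₁₁ + (SG s x y z).toBlocks₂₁ := by
  have hga : ∀ z ∈ disc, AnalyticPt g z := analyticPt_iff.1 hg.1
  have hgc : ∀ z ∈ disc, ∀ v, nsq (g z *ᵥ v) ≤ nsq v := fun z hz => (one_sub_iff _).1 (hg.2 z hz)
  have hsa : ∀ z ∈ disc, AnalyticAt ℂ s z := fun z hz => hd.analyticAt (isOpen_ball.mem_nhds hz)
  set u : ℂ → n → ℂ := fun z => g z *ᵥ x + y with hu
  set δ : ℂ → ℂ := fun z => star y ⬝ᵥ u z with hδdef
  have hδ0 : ∀ z ∈ disc, δ z ≠ 0 := fun z hz => (hδ z hz).1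
  have hδr : ∀ z ∈ disc, (s z).re + 1 / 2 ≤ ((δ z)⁻¹).re := fun z hz => (hδ z hz).2
  have hyi : ∀ i, ‖y i‖ ≤ 1 := by
    intro i
    have h1 := norm_sq_le_nsq y i
    rw [hy] at h1
    nlinarith [norm_nonneg (y i)]
  have hxi : ∀ i, ‖x i‖ ≤ 1 := by
    intro i
    have h1 := norm_sq_le_nsq x i
    rw [hx] at h1
    nlinarith [norm_nonneg (x i)]
  have hui : ∀ z ∈ disc, ∀ i, ‖u z i‖ ≤ 2 := by
    intro z hz i
    have h1 := (norm_sq_le_nsq (g z *ᵥ x) i).trans (hgc z hz x)
    rw [hx] at h1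
    have h2 : ‖(g z *ᵥ x) i‖ ≤ 1 := by nlinarith [norm_nonneg ((g z *ᵥ x) i)]
    have h3 := norm_add_le ((g z *ᵥ x) i) (y i)
    have h4 := hyi i
    simp only [hu, Pi.add_apply]
    linarith
  have hua : ∀ z ∈ disc, ∀ i, AnalyticAt ℂ (fun z => u z i) z := by
    intro z hz i
    simp only [hu, Pi.add_apply, mulVec, dotProduct]
    refine AnalyticAt.add (Finset.analyticAt_fun_sum _ fun j _ => ?_) analyticAt_const
    exact (hga z hz i j).mul analyticAt_const
  have hδa : ∀ z ∈ disc, AnalyticAt ℂ δ z := by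
    intro z hz
    simp only [hδdef, dotProduct]
    exact Finset.analyticAt_fun_sum _ fun j _ => analyticAt_const.mul (hua z hz j)
  have hδd : DifferentiableOn ℂ δ disc := fun z hz =>
    (hδa z hz).differentiableAt.differentiableWithinAt
  -- the denominator
  set D : ℂ → ℂ := fun z => 1 - s z * δ z with hD
  have hDf : ∀ z ∈ disc, D z = δ z * ((δ z)⁻¹ - s z) := by
    intro z hz
    have := hδ0 z hz
    simp only [hD]
    field_simp
  have hFr : ∀ z ∈ disc, 1 / 2 ≤ ((δ z)⁻¹ - s z).re := by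
    intro z hz
    have := hδr z hz
    rw [Complex.sub_re]
    linarith
  have hFn : ∀ z ∈ disc, 1 / 2 ≤ ‖(δ z)⁻¹ - s z‖ := fun z hz =>
    (hFr z hz).trans ((le_abs_self _).trans (Complex.abs_re_le_norm _))
  have hF0 : ∀ z ∈ disc, (δ z)⁻¹ - s z ≠ 0 := by
    intro z hz h
    have := hFn z hz
    rw [h, norm_zero] at this
    norm_num at this
  have hDn : ∀ z ∈ disc, ‖δ z‖ / 2 ≤ ‖D z‖ := by
    intro z hz
    rw [hDf z hz, norm_mul]
    have := mul_le_mul_of_nonneg_left (hFn z hz) (norm_nonneg (δ z))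
    linarith
  have hD0 : ∀ z ∈ disc, D z ≠ 0 := by
    intro z hz
    rw [hDf z hz]
    exact mul_ne_zero (hδ0 z hz) (hF0 z hz)
  -- majorants
  have hsM : Maj s := by
    have h1 := (maj_of_re (τ := fun z => 1 + s z) (hd.const_add 1) (by
      intro z hz
      have := hs z hz
      simp only [Complex.add_re, Complex.one_re]
      linarith)).1
    exact ((Maj.const (-1)).add h1).congr fun z _ => by ring
  obtain ⟨hδM2, g₀, -, -, hδb⟩ := maj_of_re (τ := fun z => 2 * (δ z)⁻¹)
    ((hδd.inv hδ0).const_mul 2) (by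
      intro z hz
      have h1 := hδr z hz
      have h2 := hs z hz
      simp only [Complex.mul_re, Complex.re_ofNat, Complex.im_ofNat, zero_mul, sub_zero]
      linarith)
  have hkM : Maj (fun z => s z / D z) := by
    have h1 : Maj (fun z => ((δ z)⁻¹ - s z)⁻¹) := Maj.of_bound (C := 2) fun z hz => by
      rw [norm_inv, inv_le_comm₀ (lt_of_lt_of_le (by norm_num) (hFn z hz)) (by norm_num)]
      have := hFn z hz
      linarith
    refine ((Maj.const (1 / 2)).mul (hsM.mul (hδM2.mul h1))).congr fun z hz => ?_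
    rw [hDf z hz]
    have h2 := hδ0 z hz
    have h3 := hF0 z hz
    rw [div_eq_mul_inv, mul_inv]
    ring
  have hka : ∀ z ∈ disc, AnalyticAt ℂ (fun z => s z / D z) z := fun z hz =>
    (hsa z hz).div (analyticAt_const.sub ((hsa z hz).mul (hδa z hz))) (hD0 z hz)
  set E : ℂ → Matrix n n ℂ := fun z => 1 + (s z / D z) • vecMulVec (u z) (star y) with hE
  set F : ℂ → Matrix n m ℂ := fun z => g z + s z • vecMulVec (u z) (star x) with hF
  have hEa : ∀ z ∈ disc, AnalyticPt E z := by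
    intro z hz i j
    have h5 : AnalyticAt ℂ (fun z => (1 : Matrix n n ℂ) i j + (s z / D z) *
        (u z i * star (y j))) z :=
      analyticAt_const.add ((hka z hz).mul ((hua z hz i).mul analyticAt_const))
    exact h5
  have hFa : ∀ z ∈ disc, AnalyticPt F z := by
    intro z hz i j
    have h5 : AnalyticAt ℂ (fun z => g z i j + s z * (u z i * star (x j))) z :=
      (hga z hz i j).add ((hsa z hz).mul ((hua z hz i).mul analyticAt_const))
    exact h5
  have hEm : MajM E := by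
    intro i j
    have h1 : Maj (fun z => u z i * star (y j)) := Maj.of_bound (C := 2) fun z hz => by
      rw [norm_mul, norm_star]
      have h2 := hui z hz i
      have h3 := hyi j
      nlinarith [norm_nonneg (u z i), norm_nonneg (y j)]
    exact (Maj.const ((1 : Matrix n n ℂ) i j)).add (hkM.mul h1)
  have hFm : MajM F := by
    intro i j
    have h1 : Maj (fun z => u z i * star (x j)) := Maj.of_bound (C := 2) fun z hz => by
      rw [norm_mul, norm_star]
      have h2 := hui z hz i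
      have h3 := hxi j
      nlinarith [norm_nonneg (u z i), norm_nonneg (x j)]
    have h2 : Maj (fun z => g z i j) := Maj.of_bound (C := 1) fun z hz =>
      entry_le_one (hgc z hz) i j
    exact h2.add (hsM.mul h1)
  set g' : ℂ → Matrix n m ℂ := fun z => E z * F z with hg'
  have hg'a : ∀ z ∈ disc, AnalyticPt g' z := fun z hz => (hEa z hz).mul (hFa z hz)
  have hg'm : MajM g' := hEm.mul hFm
  have hEe : ∀ z ∈ disc, E z * (1 - s z • vecMulVec (g z *ᵥ x + y) (star y)) = 1 :=
    fun z hz => elem_inv (hD0 z hz)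
  refine ⟨g', ⟨analyticPt_iff.2 hg'a, ?_⟩, ?_⟩
  · -- boundary values
    have hGbd : ∀ᵐ ζ ∂σ, ∃ Γ, HasBdryValue g ζ Γ := by
      have h1 : ∀ p : n × m, ∀ᵐ ζ ∂σ, ∃ L, HasBdryValue (fun z => g z p.1 p.2) ζ L :=
        fun p => fatou (hg.1 p.1 p.2) (fun z hz => entry_le_one (hgc z hz) p.1 p.2)
      filter_upwards [ae_all_iff.2 h1] with ζ hζ
      choose L hL using hζ
      exact ⟨Matrix.of fun i j => L (i, j), tendsto_entries.2 fun i j => hL (i, j)⟩
    set A : ℂ → Matrix (m ⊕ n) (m ⊕ n) ℂ := fun z => fromBlocks 0 0 (g' z) 0 with hA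
    have hAa : ∀ z ∈ disc, AnalyticPt A z := by
      intro z hz i j
      rcases i with i | i <;> rcases j with j | j
      · exact analyticAt_const
      · exact analyticAt_const
      · exact hg'a z hz i j
      · exact analyticAt_const
    have hAm : MajM A := by
      intro i j
      rcases i with i | i <;> rcases j with j | j
      · exact Maj.const _
      · exact Maj.const _
      · exact hg'm i j
      · exact Maj.const _
    have hAv : ∀ (B : Matrix n m ℂ) (x : m → ℂ) (y : n → ℂ),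
        (fromBlocks 0 0 B 0 : Matrix (m ⊕ n) (m ⊕ n) ℂ) *ᵥ (Sum.elim x y)
          = Sum.elim (0 : m → ℂ) (B *ᵥ x) := by
      intro B x y
      rw [fromBlocks_mulVec]
      simp
    have hAc : ∀ z ∈ disc, ∀ v, nsq (A z *ᵥ v) ≤ nsq v := by
      apply maj_bounded_form hAa hAm
      filter_upwards [hGbd, hsb, hδb, ae_norm] with ζ hζ hsζ hδζ hn
      obtain ⟨Γ, hΓ⟩ := hζ
      obtain ⟨L, hL, hL0⟩ := hsζ
      obtain ⟨M, hM, -⟩ := hδζ
      have hΓc : ∀ v, nsq (Γ *ᵥ v) ≤ nsq v := by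
        intro v
        apply le_of_tendsto (tendsto_nsq hΓ v)
        filter_upwards [eventually_r] with r hr
        exact hgc _ (dil_mem hr hn) v
      have hu0 : Tendsto (fun r : ℝ => u (r * ζ)) (𝓝[<] 1) (𝓝 (Γ *ᵥ x + y)) := by
        have hcc : Continuous fun B : Matrix n m ℂ => B *ᵥ x + y := by fun_prop
        exact (hcc.tendsto Γ).comp hΓ
      set u0 : n → ℂ := Γ *ᵥ x + y with hu0def
      have hδ1 : Tendsto (fun r : ℝ => δ (r * ζ)) (𝓝[<] 1) (𝓝 (star y ⬝ᵥ u0)) := by
        have hcc : Continuous fun w : n → ℂ => star y ⬝ᵥ w := by fun_prop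
        exact (hcc.tendsto u0).comp hu0
      have hδ2 : star y ⬝ᵥ u0 ≠ 0 := by
        have h1 : Tendsto (fun r : ℝ => δ (r * ζ) * (2 * (δ (r * ζ))⁻¹)) (𝓝[<] 1)
            (𝓝 ((star y ⬝ᵥ u0) * M)) := hδ1.mul hM
        have h2 : Tendsto (fun r : ℝ => δ (r * ζ) * (2 * (δ (r * ζ))⁻¹)) (𝓝[<] 1) (𝓝 2) := by
          refine tendsto_const_nhds.congr' ?_
          filter_upwards [eventually_r] with r hr
          have := hδ0 _ (dil_mem hr hn)
          field_simp
        have h3 := tendsto_nhds_unique h1 h2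
        intro h0
        rw [h0, zero_mul] at h3
        norm_num at h3
      have hD1 : Tendsto (fun r : ℝ => D (r * ζ)) (𝓝[<] 1)
          (𝓝 (1 - L * (star y ⬝ᵥ u0))) := tendsto_const_nhds.sub (Tendsto.mul hL hδ1)
      have hD2 : (1 : ℂ) - L * (star y ⬝ᵥ u0) ≠ 0 := by
        have h1 : ‖star y ⬝ᵥ u0‖ / 2 ≤ ‖(1 : ℂ) - L * (star y ⬝ᵥ u0)‖ := by
          apply le_of_tendsto_of_tendsto (hδ1.norm.div_const 2) hD1.norm
          filter_upwards [eventually_r] with r hr
          exact hDn _ (dil_mem hr hn)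
        intro h
        rw [h, norm_zero] at h1
        have := norm_pos_iff.2 hδ2
        linarith
      have hE1 : Tendsto (fun r : ℝ => E (r * ζ)) (𝓝[<] 1)
          (𝓝 (1 + (L / (1 - L * (star y ⬝ᵥ u0))) • vecMulVec u0 (star y))) := by
        have h2 : Tendsto (fun r : ℝ => s (r * ζ) / D (r * ζ)) (𝓝[<] 1)
            (𝓝 (L / (1 - L * (star y ⬝ᵥ u0)))) := Tendsto.div hL hD1 hD2
        have hcc : Continuous fun w : n → ℂ => vecMulVec w (star y) := by
          refine continuous_matrix fun i j => ?_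
          simp only [vecMulVec_apply]
          fun_prop
        have h3 := (hcc.tendsto u0).comp hu0
        exact tendsto_const_nhds.add (h2.smul h3)
      have hF1 : Tendsto (fun r : ℝ => F (r * ζ)) (𝓝[<] 1)
          (𝓝 (Γ + L • vecMulVec u0 (star x))) := by
        have hcc : Continuous fun w : n → ℂ => vecMulVec w (star x) := by
          refine continuous_matrix fun i j => ?_
          simp only [vecMulVec_apply]
          fun_prop
        have h3 := (hcc.tendsto u0).comp hu0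
        exact Tendsto.add hΓ (Tendsto.smul hL h3)
      have hg1 : Tendsto (fun r : ℝ => g' (r * ζ)) (𝓝[<] 1)
          (𝓝 ((1 + (L / (1 - L * (star y ⬝ᵥ u0))) • vecMulVec u0 (star y))
            * (Γ + L • vecMulVec u0 (star x)))) := tendsto_mmul hE1 hF1
      have hA1 : HasBdryValue A ζ
          (fromBlocks 0 0 ((1 + (L / (1 - L * (star y ⬝ᵥ u0))) • vecMulVec u0 (star y))
            * (Γ + L • vecMulVec u0 (star x))) 0) := by
        refine tendsto_entries.2 fun i j => ?_
        rcases i with i | i <;> rcases j with j | j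
        · exact tendsto_const_nhds
        · exact tendsto_const_nhds
        · exact tendsto_entries.1 hg1 i j
        · exact tendsto_const_nhds
      refine ⟨_, hA1, fun v => ?_⟩
      have hv : v = Sum.elim (v ∘ Sum.inl) (v ∘ Sum.inr) := (Sum.elim_comp_inl_inr v).symm
      rw [hv, hAv, nsq_elim, nsq_elim, nsq_zero, zero_add]
      have h6 := contact_bdry hΓc hx hy hL0 (elem_inv hD2) (v ∘ Sum.inl)
      linarith [nsq_nonneg (v ∘ Sum.inr)]
    intro z hz
    refine (one_sub_iff _).2 fun v => ?_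
    have h1 := hAc z hz (Sum.elim v 0)
    simp only [hA] at h1
    rw [hAv, nsq_elim, nsq_elim, nsq_zero, nsq_zero, zero_add, add_zero] at h1
    exact h1
  · intro z hz
    have b11 : (SG s x y z).toBlocks₁₁ = 1 - s z • vecMulVec x (star x) := by
      ext i j
      simp [SG, toBlocks₁₁, NV, bv, vecMulVec_apply, Matrix.one_apply, sub_eq_add_neg]
    have b12 : (SG s x y z).toBlocks₁₂ = s z • vecMulVec x (star y) := by
      ext i j
      simp [SG, toBlocks₁₂, NV, bv, vecMulVec_apply]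
    have b21 : (SG s x y z).toBlocks₂₁ = -(s z • vecMulVec y (star x)) := by
      ext i j
      simp [SG, toBlocks₂₁, NV, bv, vecMulVec_apply]
    have b22 : (SG s x y z).toBlocks₂₂ = 1 + s z • vecMulVec y (star y) := by
      ext i j
      simp [SG, toBlocks₂₂, NV, bv, vecMulVec_apply, Matrix.one_apply]
    rw [b11, b12, b21, b22]
    obtain ⟨k1, k2⟩ := contact_alg hx hy (s z) (hEe z hz)
    simp only [hg', hF, hu]
    rw [k1, k2]

/-- a non-constant holomorphic function with non-negative real part has positive real part -/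
lemma re_pos {s : ℂ → ℂ} (hd : DifferentiableOn ℂ s disc) (hs : ∀ z ∈ disc, 0 ≤ (s z).re)
    (hsc : ¬ ∃ c, ∀ z ∈ disc, s z = c) : ∀ z ∈ disc, 0 < (s z).re := by
  intro z0 hz0
  by_contra hcon
  have h0 : (s z0).re = 0 := le_antisymm (not_lt.1 hcon) (hs z0 hz0)
  have hne : ∀ z ∈ disc, (1 : ℂ) + s z ≠ 0 := fun z hz => one_add_ne (hs z hz)
  have hfd : DifferentiableOn ℂ (fun z => (s z - 1) / (1 + s z)) disc :=
    (hd.sub_const 1).div (hd.const_add 1) hne
  have hle : ∀ z ∈ disc, ‖(s z - 1) / (1 + s z)‖ ≤ 1 := by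
    intro z hz
    rw [norm_div, div_le_one (norm_pos_iff.2 (hne z hz))]
    rw [← sq_le_sq₀ (norm_nonneg _) (norm_nonneg _), ← Complex.normSq_eq_norm_sq,
      ← Complex.normSq_eq_norm_sq, Complex.normSq_apply, Complex.normSq_apply]
    simp only [Complex.sub_re, Complex.one_re, Complex.sub_im, Complex.one_im, Complex.add_re,
      Complex.add_im]
    nlinarith [hs z hz]
  have h1 : ‖(s z0 - 1) / (1 + s z0)‖ = 1 := by
    rw [norm_div, div_eq_one_iff_eq (norm_pos_iff.2 (hne z0 hz0)).ne']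
    rw [← sq_eq_sq₀ (norm_nonneg _) (norm_nonneg _), ← Complex.normSq_eq_norm_sq,
      ← Complex.normSq_eq_norm_sq, Complex.normSq_apply, Complex.normSq_apply]
    simp only [Complex.sub_re, Complex.one_re, Complex.sub_im, Complex.one_im, Complex.add_re,
      Complex.add_im, h0]
    ring
  have hmax : IsMaxOn (norm ∘ fun z => (s z - 1) / (1 + s z)) disc z0 := by
    intro z hz
    simp only [mem_setOf_eq, Function.comp_apply]
    rw [h1]
    exact hle z hz
  have heq := Complex.eqOn_of_isPreconnected_of_isMaxOn_norm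
    (convex_ball (0 : ℂ) 1).isPreconnected isOpen_ball hfd hz0 hmax
  refine hsc ⟨s z0, fun z hz => ?_⟩
  have h2 := heq hz
  simp only [Function.const_apply] at h2
  rw [div_eq_div_iff (hne z hz) (hne z0 hz0)] at h2
  linear_combination h2 / 2

/-- **Clark measures, scalar form.** If `2 Re s ≤ Re (1 + γ)/(1 - γ)` in the disc, where
`γ = y* g x` for unit vectors `x`, `y` and `s` is a non-constant holomorphic function with
`Re s ≥ 0` in the disc and `Re s = 0` almost everywhere on the circle, then `g` is not `κ_W` of a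
left regular `W`. -/
theorem clark_scalar {g : ℂ → Matrix n m ℂ} {s : ℂ → ℂ} {x : m → ℂ} {y : n → ℂ} (hx : nsq x = 1)
    (hy : nsq y = 1) (hd : DifferentiableOn ℂ s disc) (hs : ∀ z ∈ disc, 0 ≤ (s z).re)
    (hsb : ∀ᵐ ζ ∂circleMeasure, ∃ L, HasBdryValue s ζ L ∧ L.re = 0)
    (hsc : ¬ ∃ c, ∀ z ∈ disc, s z = c)
    (h : ∀ z ∈ disc, 2 * (s z).re
      ≤ ((1 + star y ⬝ᵥ (g z *ᵥ x)) / (1 - star y ⬝ᵥ (g z *ᵥ x))).re) :
    ¬ ∃ W : ℂ → Matrix (m ⊕ n) (m ⊕ n) ℂ, LeftRegular W ∧ IsKappa W g := by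
  intro hW
  have hg : IsSchur g := by
    obtain ⟨W, hW, hWg⟩ := hW
    exact schur_of_kappa hW.jInner hWg
  have hx0 : x ≠ 0 := by
    rintro rfl
    rw [nsq_zero] at hx
    exact zero_ne_one hx
  have hy' : nsq (-y) = 1 := by rw [nsq_neg, hy]
  have hyy : star y ⬝ᵥ y = 1 := by rw [star_dot_self, hy]; simp
  have hδe : ∀ z, star (-y) ⬝ᵥ (g z *ᵥ x + -y) = 1 - star y ⬝ᵥ (g z *ᵥ x) := by
    intro z
    rw [star_neg, neg_dotProduct, dotProduct_add, dotProduct_neg, hyy]
    ring
  have hpos := re_pos hd hs hsc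
  obtain ⟨g', hg', hgg⟩ := contact_scalar (y := -y) hx hy' hg hd hs hsb (by
    intro z hz
    rw [hδe z]
    have h1 := h z hz
    have h2 := hpos z hz
    have h3 : (1 : ℂ) - star y ⬝ᵥ (g z *ᵥ x) ≠ 0 := by
      intro h0
      rw [h0, div_zero, Complex.zero_re] at h1
      linarith
    refine ⟨h3, ?_⟩
    have h4 : (1 + star y ⬝ᵥ (g z *ᵥ x)) / (1 - star y ⬝ᵥ (g z *ᵥ x))
        = 2 * (1 - star y ⬝ᵥ (g z *ᵥ x))⁻¹ - 1 := by
      field_simp
      ring
    rw [h4] at h1
    simp only [Complex.sub_re, Complex.mul_re, Complex.re_ofNat, Complex.im_ofNat, zero_mul,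
      sub_zero, Complex.one_re] at h1
    linarith)
  exact not_const_SG hsc hx0 (((kappa_lr_iff g).1 hW).2 _
    (aSingular_SG hd hs hsb (hx.trans hy'.symm)) ⟨g', hg', hgg⟩)

end Pool.Agent.H64CS
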